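import Mathlib
import Pool.Graph.R_pool_sql_team_seeded_3997aac3.Q77.Cos.Dens

/-!
Small perturbations of a point do not change the discrepancy of its orbit much.
-/

set_option autoImplicit false

open Finset

namespace Pool.Agent.H607.Arb

open Pool.Agent.Q77.Cos (EN)

open Classical in
/-- number of points of the orbit in an interval -/
noncomputable def cnt (b N : ℕ) (y α β : ℝ) : ℕ :=
  ((range N).filter (fun m : ℕ => α ≤ Int.fract ((b : ℝ) ^ m * y) ∧
    Int.fract ((b : ℝ) ^ m * y) < β)).card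

lemma en_iff (b N : ℕ) (ε y : ℝ) : EN b ε N y ↔ ∀ α β : ℝ, 0 ≤ α → α ≤ β → β ≤ 1 →
    |(cnt b N y α β : ℝ) - (β - α) * N| ≤ ε * N := by
  unfold Pool.Agent.Q77.Cos.EN cnt
  constructor
  · intro h α β h1 h2 h3
    convert h α β h1 h2 h3 using 6
  · intro h α β h1 h2 h3
    convert h α β h1 h2 h3 using 6

/-- position of the moved point -/
lemma moved {p q η : ℝ} (a c : ℝ) (hη : 0 ≤ η) (hpq : |q - p| ≤ η) {α β : ℝ} (hα : 0 ≤ α)
    (hβ : β ≤ 1) (ha : a = Int.fract p) (hc : c = Int.fract q) (h1 : α ≤ c) (h2 : c < β) :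
    (max 0 (α - η) ≤ a ∧ a < min 1 (β + η)) ∨ (0 ≤ a ∧ a < min 1 η) ∨ (max 0 (1 - η) ≤ a ∧ a < 1) := by
  have ha0 : 0 ≤ a := by rw [ha]; exact Int.fract_nonneg p
  have ha1 : a < 1 := by rw [ha]; exact Int.fract_lt_one p
  have hc0 : 0 ≤ c := by rw [hc]; exact Int.fract_nonneg q
  have hc1 : c < 1 := by rw [hc]; exact Int.fract_lt_one q
  have e1 : p = ⌊p⌋ + a := by rw [ha]; exact (Int.floor_add_fract p).symm
  have e2 : q = ⌊q⌋ + c := by rw [hc]; exact (Int.floor_add_fract q).symm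
  rw [abs_le] at hpq
  obtain ⟨h3, h4⟩ := hpq
  rcases lt_trichotomy ⌊q⌋ ⌊p⌋ with h | h | h
  · -- floor q < floor p
    right; left
    have h5 : (⌊q⌋ : ℝ) ≤ ⌊p⌋ - 1 := by exact_mod_cast Int.le_sub_one_of_lt h
    refine ⟨ha0, lt_min ha1 ?_⟩
    linarith
  · left
    have h5 : (⌊q⌋ : ℝ) = ⌊p⌋ := by exact_mod_cast h
    refine ⟨max_le ha0 (by linarith), lt_min ha1 (by linarith)⟩
  · right; right
    have h5 : (⌊p⌋ : ℝ) ≤ ⌊q⌋ - 1 := by exact_mod_cast Int.le_sub_one_of_lt h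
    refine ⟨max_le ha0 (by linarith), ha1⟩

lemma upper {b N : ℕ} {ε η y y' : ℝ} (hε : 0 ≤ ε) (hη : 0 ≤ η)
    (hd : ∀ m < N, |(b : ℝ) ^ m * y' - (b : ℝ) ^ m * y| ≤ η) (h : EN b ε N y) (α β : ℝ)
    (hα : 0 ≤ α) (hαβ : α ≤ β) (hβ : β ≤ 1) :
    (cnt b N y' α β : ℝ) ≤ (β - α) * N + (4 * η + 3 * ε) * N := by
  classical
  rw [en_iff] at h
  have hN : (0 : ℝ) ≤ N := Nat.cast_nonneg N
  -- three intervals
  have hcard : cnt b N y' α β ≤ cnt b N y (max 0 (α - η)) (min 1 (β + η)) +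
      cnt b N y 0 (min 1 η) + cnt b N y (max 0 (1 - η)) 1 := by
    unfold cnt
    refine le_trans (card_le_card (t := ((range N).filter (fun m : ℕ =>
      max 0 (α - η) ≤ Int.fract ((b : ℝ) ^ m * y) ∧ Int.fract ((b : ℝ) ^ m * y) < min 1 (β + η))) ∪
      ((range N).filter (fun m : ℕ =>
      0 ≤ Int.fract ((b : ℝ) ^ m * y) ∧ Int.fract ((b : ℝ) ^ m * y) < min 1 η)) ∪
      ((range N).filter (fun m : ℕ =>
      max 0 (1 - η) ≤ Int.fract ((b : ℝ) ^ m * y) ∧ Int.fract ((b : ℝ) ^ m * y) < 1))) ?_) ?_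
    · intro m hm
      simp only [mem_filter, mem_range, mem_union] at hm ⊢
      obtain ⟨hm1, hm2, hm3⟩ := hm
      rcases moved (η := η) (Int.fract ((b : ℝ) ^ m * y)) (Int.fract ((b : ℝ) ^ m * y')) hη
        (hd m hm1) hα hβ rfl rfl hm2 hm3 with h1 | h1 | h1
      · exact Or.inl (Or.inl ⟨hm1, h1⟩)
      · exact Or.inl (Or.inr ⟨hm1, h1⟩)
      · exact Or.inr ⟨hm1, h1⟩
    · refine (card_union_le _ _).trans ?_
      gcongr
      exact card_union_le _ _
  have hcard' : (cnt b N y' α β : ℝ) ≤ cnt b N y (max 0 (α - η)) (min 1 (β + η)) +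
      cnt b N y 0 (min 1 η) + cnt b N y (max 0 (1 - η)) 1 := by exact_mod_cast hcard
  have a1 := (abs_le.1 (h (max 0 (α - η)) (min 1 (β + η)) (le_max_left _ _)
    (max_le (le_min zero_le_one (by linarith)) (le_min (by linarith) (by linarith)))
    (min_le_left _ _))).2
  have a2 := (abs_le.1 (h 0 (min 1 η) le_rfl (le_min zero_le_one hη) (min_le_left _ _))).2
  have a3 := (abs_le.1 (h (max 0 (1 - η)) 1 (le_max_left _ _) (max_le zero_le_one (by linarith))
    le_rfl)).2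
  have b1 : (min 1 (β + η) - max 0 (α - η)) * N ≤ (β - α + 2 * η) * N := by
    apply mul_le_mul_of_nonneg_right _ hN
    have := min_le_right 1 (β + η)
    have := le_max_right 0 (α - η)
    linarith
  have b2 : (min 1 η - 0) * (N : ℝ) ≤ η * N := by
    apply mul_le_mul_of_nonneg_right _ hN
    have := min_le_right 1 η
    linarith
  have b3 : (1 - max 0 (1 - η)) * (N : ℝ) ≤ η * N := by
    apply mul_le_mul_of_nonneg_right _ hN
    have := le_max_right 0 (1 - η)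
    linarith
  nlinarith

lemma cnt_split {b N : ℕ} {y α β γ : ℝ} (h1 : α ≤ β) (h2 : β ≤ γ) :
    cnt b N y α γ = cnt b N y α β + cnt b N y β γ := by
  classical
  unfold cnt
  rw [← card_union_of_disjoint]
  · congr 1
    ext m
    simp only [mem_filter, mem_range, mem_union]
    constructor
    · rintro ⟨h3, h4, h5⟩
      rcases lt_or_ge (Int.fract ((b : ℝ) ^ m * y)) β with h | h
      · exact Or.inl ⟨h3, h4, h⟩
      · exact Or.inr ⟨h3, h, h5⟩
    · rintro (⟨h3, h4, h5⟩ | ⟨h3, h4, h5⟩)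
      · exact ⟨h3, h4, h5.trans_le h2⟩
      · exact ⟨h3, h1.trans h4, h5⟩
  · rw [Finset.disjoint_left]
    intro m hm hm'
    simp only [mem_filter, mem_range] at hm hm'
    linarith [hm.2.2, hm'.2.1]

lemma cnt_all {b N : ℕ} {y : ℝ} : cnt b N y 0 1 = N := by
  classical
  unfold cnt
  rw [filter_true_of_mem, card_range]
  intro m _
  exact ⟨Int.fract_nonneg _, Int.fract_lt_one _⟩

/-- **Perturbation of the discrepancy.** -/
theorem en_pert {b N : ℕ} {ε η y y' : ℝ} (hε : 0 ≤ ε) (hη : 0 ≤ η)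
    (hd : ∀ m < N, |(b : ℝ) ^ m * y' - (b : ℝ) ^ m * y| ≤ η) (h : EN b ε N y) :
    EN b (8 * η + 6 * ε) N y' := by
  rw [en_iff]
  intro α β hα hαβ hβ
  have hN : (0 : ℝ) ≤ N := Nat.cast_nonneg N
  have u1 := upper hε hη hd h α β hα hαβ hβ
  have u2 := upper hε hη hd h 0 α le_rfl hα (hαβ.trans hβ)
  have u3 := upper hε hη hd h β 1 (hα.trans hαβ) hβ le_rfl
  have s1 : (cnt b N y' 0 1 : ℝ) = cnt b N y' 0 α + (cnt b N y' α β + cnt b N y' β 1) := by
    rw [cnt_split (β := α) hα (hαβ.trans hβ), cnt_split (α := α) (β := β) hαβ hβ]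
    push_cast
    ring
  rw [cnt_all] at s1
  rw [abs_le]
  have p1 : 0 ≤ η * N := by positivity
  have p2 : 0 ≤ ε * N := by positivity
  constructor <;> nlinarith

/-- integral translations -/
lemma en_int {b N : ℕ} {ε y : ℝ} (a : ℤ) : EN b ε N (a + y) ↔ EN b ε N y := by
  have h : ∀ m : ℕ, Int.fract ((b : ℝ) ^ m * (a + y)) = Int.fract ((b : ℝ) ^ m * y) := by
    intro m
    have : (b : ℝ) ^ m * (a + y) = (b : ℝ) ^ m * y + (((b : ℤ) ^ m * a : ℤ) : ℝ) := by
      push_cast; ring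
    rw [this, Int.fract_add_intCast]
  unfold Pool.Agent.Q77.Cos.EN
  simp only [h]

lemma en_mono {b N : ℕ} {ε ε' y : ℝ} (h : ε ≤ ε') (h1 : EN b ε N y) : EN b ε' N y := by
  intro α β h2 h3 h4
  exact (h1 α β h2 h3 h4).trans (mul_le_mul_of_nonneg_right h (Nat.cast_nonneg N))

end Pool.Agent.H607.Arb
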