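import Mathlib
import Pool.Agent.H607.Arb.Pert

/-!
The choice of the digits in one window: for most lengths up to `M` the number is nearly normal.
-/

set_option autoImplicit false

open Finset

namespace Pool.Agent.H607.Arb

open Pool.Agent.Q77.Cos (EN bad_all kap)

/-- nearly normal at the length `N` in all bases up to `B` coprime to `s` -/
def Gd (B s : ℕ) (ε : ℝ) (N : ℕ) (y : ℝ) : Prop :=
  ∀ b : ℕ, 2 ≤ b → b ≤ B → b.Coprime s → EN b ε N y

open Classical in
theorem choice (s B : ℕ) (hs : 2 ≤ s) (ε δ : ℝ) (hε : 0 < ε) (hε1 : ε ≤ 1) (hδ : 0 < δ) :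
    ∃ m : ℕ, 1 ≤ m ∧ ∀ K : ℕ, m ≤ K → ∀ M : ℕ, 2 * (s : ℝ) ^ K ≤ δ * M → ∀ z : ℝ,
      ∃ v : ℕ, v < s ^ m - 1 ∧
        (((range M).filter (fun N : ℕ => ¬ Gd B s ε N (z + v / (s : ℝ) ^ K))).card : ℝ) ≤ δ * M := by
  set C : ℝ := (∑ b ∈ range (B + 1), 16 * 729 ^ 4 * (kap b s : ℝ)) / ε ^ 14 with hC
  have hC0 : 0 ≤ C := by
    rw [hC]
    apply div_nonneg (Finset.sum_nonneg fun b _ => by positivity)
    positivity
  obtain ⟨m0, hm0⟩ := exists_nat_ge (2 * C / δ + 1)
  refine ⟨m0 + 1, by omega, fun K hK M hM z => ?_⟩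
  set V : ℕ := s ^ (m0 + 1) - 1 with hV
  have hVm : m0 + 1 ≤ V + 1 := by
    have : m0 + 1 < s ^ (m0 + 1) := Nat.lt_pow_self (by omega)
    omega
  have hV1 : (m0 : ℝ) ≤ V := by exact_mod_cast (by omega : m0 ≤ V)
  have hV0 : (0 : ℝ) < V := by
    have : 0 ≤ 2 * C / δ := by positivity
    linarith
  have hVC : 2 * C ≤ δ * V := by
    have h1 : 2 * C / δ ≤ V := by linarith
    rw [div_le_iff₀ hδ] at h1
    linarith
  have hVK : V ≤ s ^ K := by
    have : s ^ (m0 + 1) ≤ s ^ K := Nat.pow_le_pow_right (by omega) hK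
    omega
  -- double counting
  by_contra hcon
  push Not at hcon
  have hlow : (V : ℝ) * (δ * M) < ∑ v ∈ range V,
      (((range M).filter (fun N : ℕ => ¬ Gd B s ε N (z + v / (s : ℝ) ^ K))).card : ℝ) := by
    have : ∑ v ∈ range V, δ * (M : ℝ) = (V : ℝ) * (δ * M) := by
      rw [Finset.sum_const, card_range, nsmul_eq_mul]
    rw [← this]
    apply Finset.sum_lt_sum_of_nonempty
    · rw [Finset.nonempty_range_iff]
      have : (0 : ℝ) < V := hV0
      have h2 : 0 < V := by exact_mod_cast this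
      omega
    · intro v hv
      exact hcon v (mem_range.1 hv)
  have hswap : ∑ v ∈ range V,
      (((range M).filter (fun N : ℕ => ¬ Gd B s ε N (z + v / (s : ℝ) ^ K))).card : ℝ) =
      ∑ N ∈ range M,
        (((range V).filter (fun v : ℕ => ¬ Gd B s ε N (z + v / (s : ℝ) ^ K))).card : ℝ) := by
    simp only [Finset.card_filter]
    push_cast
    exact Finset.sum_comm
  have hterm : ∀ N ∈ range M,
      (((range V).filter (fun v : ℕ => ¬ Gd B s ε N (z + v / (s : ℝ) ^ K))).card : ℝ) ≤
        C + (if N < s ^ K then (V : ℝ) else 0) := by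
    intro N _
    split_ifs with h
    · have h1 : ((range V).filter (fun v : ℕ => ¬ Gd B s ε N (z + v / (s : ℝ) ^ K))).card ≤ V := by
        refine (card_filter_le _ _).trans ?_
        rw [card_range]
      have h2 : (((range V).filter (fun v : ℕ => ¬ Gd B s ε N (z + v / (s : ℝ) ^ K))).card : ℝ) ≤ V := by
        exact_mod_cast h1
      linarith
    · rw [add_zero]
      have h1 := bad_all B s (by omega) K N (not_lt.1 h) ε hε hε1 z
      refine le_trans ?_ h1
      have h2 : (range V).filter (fun v : ℕ => ¬ Gd B s ε N (z + v / (s : ℝ) ^ K)) ⊆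
          (range (s ^ K)).filter (fun k : ℕ => ¬ ∀ b : ℕ, 2 ≤ b → b ≤ B → b.Coprime s →
            EN b ε N (z + k / (s : ℝ) ^ K)) := by
        intro v hv
        rw [mem_filter, mem_range] at hv ⊢
        exact ⟨by omega, hv.2⟩
      exact_mod_cast card_le_card h2
  have hup : ∑ N ∈ range M,
        (((range V).filter (fun v : ℕ => ¬ Gd B s ε N (z + v / (s : ℝ) ^ K))).card : ℝ) ≤
      M * C + (s : ℝ) ^ K * V := by
    refine (Finset.sum_le_sum hterm).trans ?_
    rw [Finset.sum_add_distrib, Finset.sum_const, card_range, nsmul_eq_mul]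
    have h1 : ∑ N ∈ range M, (if N < s ^ K then (V : ℝ) else 0) ≤ (s : ℝ) ^ K * V := by
      rw [← Finset.sum_filter, Finset.sum_const, nsmul_eq_mul]
      have h2 : ((range M).filter (fun N => N < s ^ K)).card ≤ s ^ K := by
        calc _ ≤ (range (s ^ K)).card := card_le_card (by
              intro N hN
              rw [mem_filter] at hN
              exact mem_range.2 hN.2)
          _ = s ^ K := card_range _
      have h3 : (((range M).filter (fun N => N < s ^ K)).card : ℝ) ≤ (s : ℝ) ^ K := by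
        exact_mod_cast h2
      exact mul_le_mul_of_nonneg_right h3 hV0.le
    linarith
  rw [hswap] at hlow
  have hMC : (M : ℝ) * C + (s : ℝ) ^ K * V ≤ V * (δ * M) := by
    have hM0 : (0 : ℝ) ≤ M := Nat.cast_nonneg M
    nlinarith [mul_le_mul_of_nonneg_left hVC hM0, mul_le_mul_of_nonneg_right hM hV0.le]
  linarith

end Pool.Agent.H607.Arb
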