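import Mathlib
import Pool.Graph.R_pool_sql_team_seeded_3997aac3.Q77.Few.Limit

/-!
Sequences of digits, and the replacement of the digits in a window.
-/

set_option autoImplicit false

open Finset

namespace Pool.Agent.H607.Arb

open Pool.Agent.Q77.Few (head head_lt head_congr split digs digs_eq floor_head)

variable {s : ℕ}

lemma ofDigits_lt_one (hs : 2 ≤ s) (d : ℕ → Fin s) (i : ℕ) (hi : (d i : ℕ) + 1 < s) :
    Real.ofDigits d < 1 := by
  have hs0 : (0 : ℝ) < s := by exact_mod_cast (by omega : 0 < s)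
  have h1 := split s (by omega) d (i + 1)
  have h2 : head s d (i + 1) + 2 ≤ s ^ (i + 1) := by
    rw [head, pow_succ']
    have h3 := head_lt s d i
    have h4 : s * (head s d i + 1) ≤ s * s ^ i := Nat.mul_le_mul_left _ h3
    rw [mul_add, mul_one] at h4
    omega
  have h3 : ((head s d (i + 1) : ℝ)) + 2 ≤ (s : ℝ) ^ (i + 1) := by exact_mod_cast h2
  have h4 := Real.ofDigits_le_one (fun j => d (j + (i + 1)))
  have h5 : (0 : ℝ) < (s : ℝ) ^ (i + 1) := by positivity
  rw [h1, inv_mul_eq_div, ← add_div, div_lt_one h5]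
  linarith

/-- infinitely many digits are not the largest one -/
def Proper (d : ℕ → Fin s) : Prop := ∀ L : ℕ, ∃ i, L ≤ i ∧ (d i : ℕ) + 1 < s

lemma floor_proper (hs : 2 ≤ s) {d : ℕ → Fin s} (hd : Proper d) (a : ℤ) (L : ℕ) :
    ⌊((a : ℝ) + Real.ofDigits d) * (s : ℝ) ^ L⌋ = a * (s : ℤ) ^ L + head s d L := by
  have hs0 : (0 : ℝ) < s := by exact_mod_cast (by omega : 0 < s)
  obtain ⟨i, hi1, hi2⟩ := hd L
  have h1 : Real.ofDigits (fun j => d (j + L)) < 1 := by
    refine ofDigits_lt_one hs (fun j => d (j + L)) (i - L) ?_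
    show (d (i - L + L) : ℕ) + 1 < s
    rw [Nat.sub_add_cancel hi1]
    exact hi2
  have h0 := Real.ofDigits_nonneg (fun j => d (j + L))
  have h2 := split s (by omega) d L
  rw [h2, Int.floor_eq_iff]
  have h3 : (0 : ℝ) < (s : ℝ) ^ L := by positivity
  have h4 : ((a : ℝ) + (((s : ℝ) ^ L)⁻¹ * Real.ofDigits (fun i => d (i + L)) +
      (head s d L : ℝ) / (s : ℝ) ^ L)) * (s : ℝ) ^ L =
      a * (s : ℝ) ^ L + head s d L + Real.ofDigits (fun i => d (i + L)) := by
    field_simp
    ring
  rw [h4]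
  push_cast
  constructor <;> linarith

lemma dig_proper (hs : 2 ≤ s) {d : ℕ → Fin s} (hd : Proper d) (a : ℤ) (i : ℕ) :
    ⌊((a : ℝ) + Real.ofDigits d) * (s : ℝ) ^ (i + 1)⌋ % s = ((d i : ℕ) : ℤ) := by
  rw [floor_proper hs hd, head]
  push_cast
  have h1 : (a : ℤ) * (s : ℤ) ^ (i + 1) + (s * head s d i + (d i : ℕ)) =
      (d i : ℕ) + s * (a * (s : ℤ) ^ i + head s d i) := by ring
  rw [h1, Int.add_mul_emod_self_left]
  exact Int.emod_eq_of_lt (by positivity) (by exact_mod_cast (d i).isLt)

lemma floor_zero_proper (hs : 2 ≤ s) {d : ℕ → Fin s} (hd : Proper d) (a : ℤ) :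
    ⌊(a : ℝ) + Real.ofDigits d⌋ = a := by
  have h := floor_proper hs hd a 0
  simpa [head] using h

lemma close (hs : 1 ≤ s) (d d' : ℕ → Fin s) (T : ℕ) (h : ∀ i < T, d i = d' i) :
    |Real.ofDigits d - Real.ofDigits d'| ≤ ((s : ℝ) ^ T)⁻¹ := by
  have hs0 : (0 : ℝ) < s := by exact_mod_cast (by omega : 0 < s)
  have h1 := split s hs d T
  have h2 := split s hs d' T
  rw [head_congr s d d' T h] at h1
  have h3 : Real.ofDigits d - Real.ofDigits d' = ((s : ℝ) ^ T)⁻¹ *
      (Real.ofDigits (fun i => d (i + T)) - Real.ofDigits (fun i => d' (i + T))) := by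
    rw [h1, h2]; ring
  rw [h3, abs_mul, abs_of_pos (by positivity : (0 : ℝ) < ((s : ℝ) ^ T)⁻¹)]
  have h4 : |Real.ofDigits (fun i => d (i + T)) - Real.ofDigits (fun i => d' (i + T))| ≤ 1 := by
    rw [abs_le]
    have a1 := Real.ofDigits_nonneg (fun i => d (i + T))
    have a2 := Real.ofDigits_nonneg (fun i => d' (i + T))
    have a3 := Real.ofDigits_le_one (fun i => d (i + T))
    have a4 := Real.ofDigits_le_one (fun i => d' (i + T))
    constructor <;> linarith
  calc _ ≤ ((s : ℝ) ^ T)⁻¹ * 1 := by gcongr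
    _ = _ := mul_one _

/-- replace the digits at the places `T, …, T + m - 1` by the digits of `v` -/
def repl (d : ℕ → Fin s) (T m v : ℕ) (i : ℕ) : Fin s :=
  if T ≤ i ∧ i < T + m then
    ⟨(v / s ^ (m - 1 - (i - T))) % s, Nat.mod_lt _ (d 0).pos⟩ else d i

lemma repl_out (d : ℕ → Fin s) (T m v i : ℕ) (h : ¬ (T ≤ i ∧ i < T + m)) :
    repl d T m v i = d i := by
  unfold repl
  rw [if_neg h]

lemma head_repl_aux (hs : 2 ≤ s) (d : ℕ → Fin s) (T m v : ℕ) (hv : v < s ^ m) (i : ℕ) (hi : i ≤ m) :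
    head s (repl d T m v) (T + i) = head s d T * s ^ i + v / s ^ (m - i) := by
  induction i with
  | zero =>
    rw [add_zero, pow_zero, mul_one, Nat.sub_zero, Nat.div_eq_of_lt hv, add_zero]
    exact head_congr s _ _ T fun j hj => repl_out d T m v j (by omega)
  | succ i ih =>
    rw [← add_assoc, head, ih (by omega)]
    have h1 : ((repl d T m v (T + i) : Fin s) : ℕ) = (v / s ^ (m - (i + 1))) % s := by
      unfold repl
      rw [if_pos (by omega)]
      simp only
      congr 3
      omega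
    rw [h1]
    have h2 : m - i = (m - (i + 1)) + 1 := by omega
    rw [h2, pow_succ s (m - (i + 1)), ← Nat.div_div_eq_div_mul, pow_succ]
    have h3 := Nat.div_add_mod (v / s ^ (m - (i + 1))) s
    nlinarith

lemma head_repl (hs : 2 ≤ s) (d : ℕ → Fin s) (T m v : ℕ) (hv : v < s ^ m) :
    head s (repl d T m v) (T + m) = head s d T * s ^ m + v := by
  rw [head_repl_aux hs d T m v hv m le_rfl, Nat.sub_self, pow_zero, Nat.div_one]

lemma ofDigits_repl (hs : 2 ≤ s) (d : ℕ → Fin s) (T m v : ℕ) (hv : v < s ^ m) :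
    Real.ofDigits (repl d T m v) = Real.ofDigits (repl d T m 0) + v / (s : ℝ) ^ (T + m) := by
  have hs0 : (0 : ℝ) < s := by exact_mod_cast (by omega : 0 < s)
  have h1 := split s (by omega) (repl d T m v) (T + m)
  have h2 := split s (by omega) (repl d T m 0) (T + m)
  rw [head_repl hs d T m v hv] at h1
  rw [head_repl hs d T m 0 (Nat.pow_pos (by omega))] at h2
  have h3 : (fun i => repl d T m v (i + (T + m))) = fun i => repl d T m 0 (i + (T + m)) := by
    funext i
    rw [repl_out d T m v _ (by omega), repl_out d T m 0 _ (by omega)]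
  rw [h1, h2, h3]
  push_cast
  ring

lemma repl_nonmax (hs : 2 ≤ s) (d : ℕ → Fin s) (T m v : ℕ) (hv : v < s ^ m - 1) :
    ∃ i, T ≤ i ∧ i < T + m ∧ ((repl d T m v i : Fin s) : ℕ) + 1 < s := by
  by_contra hcon
  push Not at hcon
  have hv' : v < s ^ m := by omega
  have key : ∀ i ≤ m, head s (repl d T m v) (T + i) + 1 = (head s d T + 1) * s ^ i := by
    intro i
    induction i with
    | zero =>
      intro _
      rw [add_zero, pow_zero, mul_one]
      rw [head_congr s _ _ T fun j hj => repl_out d T m v j (by omega)]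
    | succ i ih =>
      intro hi
      have h1 := ih (by omega)
      have h2 := hcon (T + i) (by omega) (by omega)
      have h3 := (repl d T m v (T + i)).isLt
      have h4 : ((repl d T m v (T + i) : Fin s) : ℕ) + 1 = s := by omega
      rw [← add_assoc, head, add_assoc, h4, pow_succ]
      have h5 : s * head s (repl d T m v) (T + i) + s = s * (head s (repl d T m v) (T + i) + 1) := by
        ring
      rw [h5, h1]
      ring
  have h1 := key m le_rfl
  rw [head_repl hs d T m v hv'] at h1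
  have h2 : (head s d T + 1) * s ^ m = head s d T * s ^ m + s ^ m := by ring
  rw [h2] at h1
  omega

end Pool.Agent.H607.Arb
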