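import Mathlib
import Pool.Agent.H607.Arb.Choice
import Pool.Agent.H607.Arb.Digits

/-!
The construction: windows of digits at very sparse places.
-/

set_option autoImplicit false

open Finset Filter Topology

namespace Pool.Agent.H607.Arb

open Pool.Agent.Q77.Cos (EN)
open Pool.Agent.Q77.Few (head head_lt head_congr split digs digs_eq floor_head word_iff)

/-- beginnings of the windows -/
def TT (s : ℕ) (m n0 : ℕ → ℕ) : ℕ → ℕ
  | 0 => n0 0
  | j + 1 => TT s m n0 j + m j + 1 + n0 (j + 1) +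
      (j + 1) * (2 * (j + 1) * s ^ (TT s m n0 j + m j) + 1)

variable {s : ℕ} {m n0 : ℕ → ℕ}

lemma TT_step (j : ℕ) : TT s m n0 j + m j + 1 ≤ TT s m n0 (j + 1) := by
  rw [TT]
  omega

lemma TT_mono : StrictMono (TT s m n0) := by
  apply strictMono_nat_of_lt_succ
  intro j
  have := TT_step (s := s) (m := m) (n0 := n0) j
  omega

lemma TT_n0 (j : ℕ) : n0 j ≤ TT s m n0 j := by
  cases j with
  | zero => exact le_rfl
  | succ j => rw [TT]; omega

lemma TT_big (j : ℕ) :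
    (j + 1) * (2 * (j + 1) * s ^ (TT s m n0 j + m j) + 1) ≤ TT s m n0 (j + 1) := by
  rw [TT]
  omega

/-- the places of the windows -/
def AA (s : ℕ) (m n0 : ℕ → ℕ) : Set ℕ := {i | ∃ j, TT s m n0 j ≤ i ∧ i < TT s m n0 j + m j}

lemma sparse (f : ℕ → ℕ) (hf : ∀ j n, n0 j ≤ n → ∑ i ∈ range (j + 1), m i ≤ f n) (n : ℕ) :
    {i : ℕ | i < n ∧ i ∈ AA s m n0}.ncard ≤ f n := by
  classical
  rcases Nat.lt_or_ge (TT s m n0 0) n with h0 | h0
  · set j := Nat.findGreatest (fun j => TT s m n0 j < n) n with hj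
    have h1 : TT s m n0 j < n := Nat.findGreatest_spec (P := fun j => TT s m n0 j < n)
      (Nat.zero_le n) h0
    have h2 : ∀ k, j < k → n ≤ TT s m n0 k := by
      intro k hk
      rcases Nat.lt_or_ge n k with h | h
      · exact h.le.trans (TT_mono.le_apply)
      · exact not_lt.1 (Nat.findGreatest_is_greatest (P := fun j => TT s m n0 j < n) hk h)
    have h3 : {i : ℕ | i < n ∧ i ∈ AA s m n0} ⊆
        ((range (j + 1)).biUnion fun k => Ico (TT s m n0 k) (TT s m n0 k + m k) : Finset ℕ) := by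
      rintro i ⟨hi, k, hk1, hk2⟩
      rw [mem_coe, mem_biUnion]
      refine ⟨k, ?_, mem_Ico.2 ⟨hk1, hk2⟩⟩
      rw [mem_range]
      by_contra hcon
      have := h2 k (by omega)
      omega
    calc _ ≤ (((range (j + 1)).biUnion fun k =>
          Ico (TT s m n0 k) (TT s m n0 k + m k) : Finset ℕ) : Set ℕ).ncard :=
          Set.ncard_le_ncard h3 (Finset.finite_toSet _)
      _ = ((range (j + 1)).biUnion fun k => Ico (TT s m n0 k) (TT s m n0 k + m k)).card :=
          Set.ncard_coe_finset _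
      _ ≤ ∑ k ∈ range (j + 1), (Ico (TT s m n0 k) (TT s m n0 k + m k)).card := card_biUnion_le
      _ = ∑ k ∈ range (j + 1), m k := by
          refine sum_congr rfl fun k _ => ?_
          rw [Nat.card_Ico]
          omega
      _ ≤ f n := hf j n (by
          have := TT_n0 (s := s) (m := m) (n0 := n0) j
          omega)
  · have h1 : {i : ℕ | i < n ∧ i ∈ AA s m n0} = ∅ := by
      ext i
      simp only [Set.mem_ofPred_eq, Set.mem_empty_iff_false, iff_false]
      rintro ⟨hi, k, hk1, hk2⟩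
      have := (TT_mono (s := s) (m := m) (n0 := n0)).monotone (Nat.zero_le k)
      omega
    rw [h1, Set.ncard_empty]
    exact Nat.zero_le _

/-- the digits after some steps -/
noncomputable def dd (a : ℤ) (d0 : ℕ → Fin s) (T m : ℕ → ℕ) (V : ℕ → ℝ → ℕ) : ℕ → ℕ → Fin s
  | 0 => d0
  | j + 1 => repl (dd a d0 T m V j) (T j) (m j)
      (V j ((a : ℝ) + Real.ofDigits (repl (dd a d0 T m V j) (T j) (m j) 0)))

lemma dd_step (a : ℤ) (d0 : ℕ → Fin s) (T m : ℕ → ℕ) (V : ℕ → ℝ → ℕ) (j i : ℕ)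
    (h : ¬ (T j ≤ i ∧ i < T j + m j)) : dd a d0 T m V (j + 1) i = dd a d0 T m V j i := by
  rw [dd]
  exact repl_out _ _ _ _ _ h

lemma dd_stable (a : ℤ) (d0 : ℕ → Fin s) (T m : ℕ → ℕ) (hT : Monotone T) (V : ℕ → ℝ → ℕ)
    (j i : ℕ) (h : i < T j) (k : ℕ) : dd a d0 T m V (j + k) i = dd a d0 T m V j i := by
  induction k with
  | zero => rfl
  | succ k ih =>
    rw [← add_assoc, dd_step, ih]
    have := hT (Nat.le_add_right j k)
    omega

lemma dd_out (a : ℤ) (d0 : ℕ → Fin s) (T m : ℕ → ℕ) (V : ℕ → ℝ → ℕ) (i : ℕ)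
    (h : ∀ j, ¬ (T j ≤ i ∧ i < T j + m j)) (k : ℕ) : dd a d0 T m V k i = d0 i := by
  induction k with
  | zero => rfl
  | succ k ih => rw [dd_step _ _ _ _ _ _ _ (h k), ih]

open Classical in
theorem build (s : ℕ) (hs : 2 ≤ s) (f : ℕ → ℕ) (hf : Tendsto f atTop atTop) :
    ∃ A : Set ℕ, (∀ n, {i : ℕ | i < n ∧ i ∈ A}.ncard ≤ f n) ∧
      ∀ x : ℝ, ∃ y : ℝ, ⌊y⌋ = ⌊x⌋ ∧
        (∀ i, i ∉ A → ⌊y * (s : ℝ) ^ (i + 1)⌋ % s = ⌊x * (s : ℝ) ^ (i + 1)⌋ % s) ∧
        ∃ M : ℕ → ℕ, (∀ j, j ≤ M j) ∧ ∀ j : ℕ,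
          (((range (M j)).filter (fun N : ℕ => ¬ Gd (j + 1) s (14 / (j + 1)) N y)).card : ℝ) ≤
            1 / (j + 1) * M j := by
  have hs0 : (0 : ℝ) < s := by exact_mod_cast (by omega : 0 < s)
  have hch : ∀ j : ℕ, ∃ m : ℕ, 1 ≤ m ∧ ∀ K : ℕ, m ≤ K → ∀ M : ℕ,
      2 * (s : ℝ) ^ K ≤ (1 / (j + 1 : ℝ)) * M → ∀ z : ℝ, ∃ v : ℕ, v < s ^ m - 1 ∧
        (((range M).filter (fun N : ℕ =>
          ¬ Gd (j + 1) s (1 / (j + 1 : ℝ)) N (z + v / (s : ℝ) ^ K))).card : ℝ) ≤
            (1 / (j + 1 : ℝ)) * M := by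
    intro j
    apply choice s (j + 1) hs (1 / (j + 1 : ℝ)) (1 / (j + 1 : ℝ)) (by positivity) _ (by positivity)
    rw [div_le_one (by positivity)]
    have : (0 : ℝ) ≤ j := Nat.cast_nonneg j
    linarith
  choose m hm1 hm using hch
  have hn0 : ∀ j : ℕ, ∃ n0 : ℕ, ∀ n, n0 ≤ n → ∑ i ∈ range (j + 1), m i ≤ f n := by
    intro j
    exact eventually_atTop.1 (tendsto_atTop.1 hf (∑ i ∈ range (j + 1), m i))
  choose n0 hn0 using hn0
  set T := TT s m n0 with hT
  have hTm : StrictMono T := TT_mono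
  have hTj : ∀ j, j ≤ T j := fun j => hTm.le_apply
  set M : ℕ → ℕ := fun j => 2 * (j + 1) * s ^ (T j + m j) with hM
  have hMR : ∀ j : ℕ, 2 * (s : ℝ) ^ (T j + m j) ≤ (1 / (j + 1 : ℝ)) * (M j : ℕ) := by
    intro j
    rw [hM]
    push_cast
    have : (0 : ℝ) < (j : ℝ) + 1 := by positivity
    apply le_of_eq
    field_simp
  have hV : ∀ (j : ℕ) (z : ℝ), ∃ v : ℕ, v < s ^ m j - 1 ∧
      (((range (M j)).filter (fun N : ℕ =>
        ¬ Gd (j + 1) s (1 / (j + 1 : ℝ)) N (z + v / (s : ℝ) ^ (T j + m j)))).card : ℝ) ≤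
          (1 / (j + 1 : ℝ)) * (M j : ℕ) :=
    fun j z => hm j (T j + m j) (by omega) (M j) (hMR j) z
  choose V hV1 hV2 using hV
  refine ⟨AA s m n0, sparse f fun j n h => hn0 j n h, fun x => ?_⟩
  set a : ℤ := ⌊x⌋ with ha
  set d : ℕ → ℕ → Fin s := dd a (digs s (by omega) x) T m V with hd
  set D : ℕ → Fin s := fun i => d (i + 1) i with hD
  have hDeq : ∀ j i, i < T j → D i = d j i := by
    intro j i hi
    have h1 : i < T (i + 1) := lt_of_lt_of_le (Nat.lt_succ_self i) (hTj (i + 1))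
    rcases le_total j (i + 1) with h | h
    · obtain ⟨k, hk⟩ := Nat.exists_eq_add_of_le h
      rw [hD]
      simp only
      rw [hk, hd]
      exact dd_stable a _ T m hTm.monotone V j i hi k
    · obtain ⟨k, hk⟩ := Nat.exists_eq_add_of_le h
      rw [hD]
      simp only
      rw [hk, hd]
      exact (dd_stable a _ T m hTm.monotone V (i + 1) i h1 k).symm
  have hprop : Proper D := by
    intro L
    obtain ⟨i, hi1, hi2, hi3⟩ := repl_nonmax hs (d L) (T L) (m L) _
      (hV1 L ((a : ℝ) + Real.ofDigits (repl (d L) (T L) (m L) 0)))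
    have h1 : i < T (L + 1) := by
      have := TT_step (s := s) (m := m) (n0 := n0) L
      rw [← hT] at this
      omega
    refine ⟨i, (hTj L).trans hi1, ?_⟩
    rw [hDeq (L + 1) i h1]
    exact hi3
  refine ⟨(a : ℝ) + Real.ofDigits D, floor_zero_proper hs hprop a, fun i hi => ?_, M, ?_, ?_⟩
  · rw [dig_proper hs hprop a i, digs_eq s (by omega) x i]
    congr 2
    rw [hD]
    simp only
    rw [hd]
    apply dd_out
    intro j hj
    exact hi ⟨j, hj⟩
  · intro j
    rw [hM]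
    simp only
    have h1 : 1 ≤ s ^ (T j + m j) := Nat.one_le_pow _ _ (by omega)
    nlinarith
  · intro j
    refine le_trans ?_ (hV2 j ((a : ℝ) + Real.ofDigits (repl (d j) (T j) (m j) 0)))
    have hj0 : (0 : ℝ) < (j : ℝ) + 1 := by positivity
    have hy : (a : ℝ) + Real.ofDigits (repl (d j) (T j) (m j) 0) +
        (V j ((a : ℝ) + Real.ofDigits (repl (d j) (T j) (m j) 0)) : ℕ) /
          (s : ℝ) ^ (T j + m j) = (a : ℝ) + Real.ofDigits (d (j + 1)) := by
      have hv := hV1 j ((a : ℝ) + Real.ofDigits (repl (d j) (T j) (m j) 0))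
      have h1 := ofDigits_repl hs (d j) (T j) (m j)
        (V j ((a : ℝ) + Real.ofDigits (repl (d j) (T j) (m j) 0))) (by omega)
      have h2 : d (j + 1) = repl (d j) (T j) (m j)
        (V j ((a : ℝ) + Real.ofDigits (repl (d j) (T j) (m j) 0))) := rfl
      rw [h2, h1]
      ring
    rw [hy]
    have hclose : |Real.ofDigits D - Real.ofDigits (d (j + 1))| ≤ ((s : ℝ) ^ T (j + 1))⁻¹ :=
      close (by omega) D (d (j + 1)) (T (j + 1)) fun i hi => hDeq (j + 1) i hi
    have hsub : (range (M j)).filter (fun N : ℕ =>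
        ¬ Gd (j + 1) s (14 / (j + 1)) N ((a : ℝ) + Real.ofDigits D)) ⊆
        (range (M j)).filter (fun N : ℕ =>
          ¬ Gd (j + 1) s (1 / (j + 1 : ℝ)) N ((a : ℝ) + Real.ofDigits (d (j + 1)))) := by
      intro N hN
      rw [mem_filter, mem_range] at hN ⊢
      refine ⟨hN.1, fun hgd => hN.2 fun b hb1 hb2 hb3 => ?_⟩
      have h1 := hgd b hb1 hb2 hb3
      have h2 : (14 : ℝ) / (j + 1) = 8 * (1 / (j + 1)) + 6 * (1 / (j + 1)) := by ring
      rw [h2]
      apply en_pert (by positivity) (by positivity) _ h1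
      intro k hk
      have hb0 : (0 : ℝ) ≤ (b : ℝ) := Nat.cast_nonneg b
      have h3 : (b : ℝ) ^ k * ((a : ℝ) + Real.ofDigits D) -
          (b : ℝ) ^ k * ((a : ℝ) + Real.ofDigits (d (j + 1))) =
          (b : ℝ) ^ k * (Real.ofDigits D - Real.ofDigits (d (j + 1))) := by ring
      rw [h3, abs_mul, abs_of_nonneg (by positivity)]
      -- sizes
      have h4 : b ^ k * (j + 1) ≤ s ^ T (j + 1) := by
        calc b ^ k * (j + 1) ≤ (j + 1) ^ k * (j + 1) :=
              Nat.mul_le_mul_right _ (Nat.pow_le_pow_left hb2 k)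
          _ = (j + 1) ^ (k + 1) := (pow_succ _ _).symm
          _ ≤ (2 ^ (j + 1)) ^ (k + 1) := Nat.pow_le_pow_left (Nat.lt_two_pow_self).le _
          _ = 2 ^ ((j + 1) * (k + 1)) := (pow_mul _ _ _).symm
          _ ≤ s ^ ((j + 1) * (k + 1)) := Nat.pow_le_pow_left hs _
          _ ≤ s ^ T (j + 1) := by
              apply Nat.pow_le_pow_right (by omega)
              refine le_trans ?_ (TT_big (s := s) (m := m) (n0 := n0) j)
              apply Nat.mul_le_mul_left
              have h5 : N < 2 * (j + 1) * s ^ (T j + m j) := hN.1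
              rw [← hT]
              omega
      have h5 : (b : ℝ) ^ k * (j + 1) ≤ (s : ℝ) ^ T (j + 1) := by exact_mod_cast h4
      calc (b : ℝ) ^ k * |Real.ofDigits D - Real.ofDigits (d (j + 1))|
          ≤ (b : ℝ) ^ k * ((s : ℝ) ^ T (j + 1))⁻¹ := by gcongr
        _ ≤ 1 / (j + 1) := by
            rw [le_div_iff₀ hj0, mul_right_comm, ← div_eq_mul_inv, div_le_one (by positivity)]
            exact h5
    exact_mod_cast card_le_card hsub

end Pool.Agent.H607.Arb
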