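import Mathlib
import Pool.Agent.H607.Arb.Build

/-!
Frequencies of words along a set of lengths of upper density one.
-/

set_option autoImplicit false

open Finset Filter Topology

namespace Pool.Agent.H607.Arb

open Pool.Agent.Q77.Cos (EN)
open Pool.Agent.Q77.Few (head head_lt head_congr split digs digs_eq floor_head word_iff)

/-- `y` is normal in base `b` along the lengths in `S` -/
def Nal (b : ℕ) (S : Set ℕ) (y : ℝ) : Prop :=
  ∀ k : ℕ, 0 < k → ∀ w : Fin k → Fin b,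
    Tendsto (fun n : ℕ => (((range n).filter (fun i : ℕ => ∀ j : Fin k,
      ⌊y * (b : ℝ) ^ (i + 1 + (j : ℕ))⌋ % b = ((w j : ℕ) : ℤ))).card : ℝ) / n)
      (atTop ⊓ 𝓟 S) (𝓝 (1 / (b : ℝ) ^ k))

/-- frequency of a word from the discrepancy -/
lemma freq {b : ℕ} (hb : 2 ≤ b) {ε : ℝ} {N : ℕ} {y : ℝ} (h : EN b ε N y) (k : ℕ)
    (w : Fin k → Fin b) :
    |(((range N).filter (fun i : ℕ => ∀ j : Fin k,
      ⌊y * (b : ℝ) ^ (i + 1 + (j : ℕ))⌋ % b = ((w j : ℕ) : ℤ))).card : ℝ) -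
      1 / (b : ℝ) ^ k * N| ≤ ε * N := by
  classical
  set w' : ℕ → Fin b := fun j => if h : j < k then w ⟨j, h⟩ else ⟨0, by omega⟩ with hw'
  have hw : ∀ j : Fin k, w' j = w j := by
    intro j
    rw [hw']
    simp [j.isLt]
  have hbk : (0 : ℝ) < (b : ℝ) ^ k := by
    have : (0 : ℝ) < b := by exact_mod_cast (by omega : 0 < b)
    positivity
  set α : ℝ := (head b w' k : ℝ) / (b : ℝ) ^ k with hα
  set β : ℝ := ((head b w' k : ℝ) + 1) / (b : ℝ) ^ k with hβ
  have hα0 : 0 ≤ α := by rw [hα]; positivity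
  have hαβ : α ≤ β := by rw [hα, hβ]; gcongr; linarith
  have hβ1 : β ≤ 1 := by
    rw [hβ, div_le_one hbk]
    have := head_lt b w' k
    exact_mod_cast this
  have hlen : β - α = 1 / (b : ℝ) ^ k := by rw [hα, hβ]; ring
  have h1 := (en_iff b N ε y).1 h α β hα0 hαβ hβ1
  rw [hlen] at h1
  have hset : (range N).filter (fun i : ℕ => ∀ j : Fin k,
      ⌊y * (b : ℝ) ^ (i + 1 + (j : ℕ))⌋ % b = ((w j : ℕ) : ℤ)) =
      (range N).filter (fun l : ℕ => α ≤ Int.fract ((b : ℝ) ^ l * y) ∧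
        Int.fract ((b : ℝ) ^ l * y) < β) := by
    apply Finset.filter_congr
    intro i _
    rw [← word_iff b (by omega) ((b : ℝ) ^ i * y) k w w' hw]
    apply forall_congr'
    intro j
    rw [show (b : ℝ) ^ i * y * (b : ℝ) ^ ((j : ℕ) + 1) = y * (b : ℝ) ^ (i + 1 + (j : ℕ)) by ring]
  rw [hset]
  unfold cnt at h1
  exact h1

open Classical in
theorem along (s : ℕ) (y : ℝ) (M : ℕ → ℕ) (hMj : ∀ j, j ≤ M j)
    (hM : ∀ j : ℕ,
      (((range (M j)).filter (fun N : ℕ => ¬ Gd (j + 1) s (14 / (j + 1)) N y)).card : ℝ) ≤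
        1 / (j + 1) * M j) :
    ∃ S : Set ℕ, (∀ ε : ℝ, 0 < ε → ∃ᶠ n : ℕ in atTop,
        (1 - ε) * n ≤ ({N : ℕ | N < n ∧ N ∈ S}.ncard : ℝ)) ∧
      ∀ b : ℕ, 2 ≤ b → b.Coprime s → Nal b S y := by
  refine ⟨{N | ∃ j, N < M j ∧ Gd (j + 1) s (14 / (j + 1)) N y}, fun ε hε => ?_,
    fun b hb hbs k _ w => ?_⟩
  · rw [frequently_atTop]
    intro n1
    obtain ⟨j1, hj1⟩ := exists_nat_gt (1 / ε)
    set j := n1 + j1 with hj
    refine ⟨M j, le_trans (by omega) (hMj j), ?_⟩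
    have hj0 : (0 : ℝ) < (j : ℝ) + 1 := by positivity
    have h1 := hM j
    have h2 : (((range (M j)).filter (fun N : ℕ => Gd (j + 1) s (14 / (j + 1)) N y)).card : ℝ) +
        (((range (M j)).filter (fun N : ℕ => ¬ Gd (j + 1) s (14 / (j + 1)) N y)).card : ℝ) =
        M j := by
      have := Finset.card_filter_add_card_filter_not (s := range (M j))
        (fun N : ℕ => Gd (j + 1) s (14 / (j + 1)) N y)
      rw [card_range] at this
      exact_mod_cast this
    have h3 : (((range (M j)).filter (fun N : ℕ => Gd (j + 1) s (14 / (j + 1)) N y)).card : ℝ) ≤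
        ({N : ℕ | N < M j ∧ N ∈ {N | ∃ j, N < M j ∧ Gd (j + 1) s (14 / (j + 1)) N y}}.ncard : ℝ) := by
      have hfin : {N : ℕ | N < M j ∧ N ∈ {N | ∃ j, N < M j ∧
          Gd (j + 1) s (14 / (j + 1)) N y}}.Finite :=
        (Set.finite_Iio (M j)).subset fun N hN => hN.1
      have hsub : (((range (M j)).filter (fun N : ℕ => Gd (j + 1) s (14 / (j + 1)) N y) :
          Finset ℕ) : Set ℕ) ⊆ {N : ℕ | N < M j ∧ N ∈ {N | ∃ j, N < M j ∧
          Gd (j + 1) s (14 / (j + 1)) N y}} := by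
        intro N hN
        rw [mem_coe, mem_filter, mem_range] at hN
        exact ⟨hN.1, j, hN.1, hN.2⟩
      have := Set.ncard_le_ncard hsub hfin
      rw [Set.ncard_coe_finset] at this
      exact_mod_cast this
    have h4 : 1 / ((j : ℝ) + 1) ≤ ε := by
      rw [div_le_iff₀ hj0]
      rw [div_lt_iff₀ hε] at hj1
      have h5 : (j1 : ℝ) ≤ j := by exact_mod_cast (by omega : j1 ≤ j)
      nlinarith
    have h5 : (0 : ℝ) ≤ (M j : ℕ) := Nat.cast_nonneg _
    nlinarith [mul_le_mul_of_nonneg_right h4 h5]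
  · rw [Metric.tendsto_nhds]
    intro ε hε
    rw [eventually_inf_principal]
    obtain ⟨j1, hj1⟩ := exists_nat_gt (14 / ε)
    set j0 := j1 + b with hj0
    filter_upwards [eventually_ge_atTop (∑ j ∈ range j0, M j + 1)] with N hN hNS
    obtain ⟨j, hj1', hj2⟩ := hNS
    have hjj : j0 ≤ j := by
      by_contra hcon
      have h1 : M j ≤ ∑ j ∈ range j0, M j :=
        Finset.single_le_sum (f := M) (fun i _ => Nat.zero_le _) (mem_range.2 (by omega))
      omega
    have h1 := freq hb (hj2 b hb (by omega) hbs) k w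
    have hN0 : (0 : ℝ) < N := by exact_mod_cast (by omega : 0 < N)
    have hjp : (0 : ℝ) < (j : ℝ) + 1 := by positivity
    rw [Real.dist_eq]
    have h4 : ∀ c : ℝ, c / N - 1 / (b : ℝ) ^ k = (c - 1 / (b : ℝ) ^ k * N) / N := by
      intro c
      field_simp
    rw [h4, abs_div, abs_of_pos hN0, div_lt_iff₀ hN0]
    refine lt_of_le_of_lt h1 ?_
    apply mul_lt_mul_of_pos_right _ hN0
    rw [div_lt_iff₀ hjp]
    rw [div_lt_iff₀ hε] at hj1
    have h5 : (j1 : ℝ) ≤ j := by exact_mod_cast (by omega : j1 ≤ j)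
    nlinarith

end Pool.Agent.H607.Arb
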