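import Mathlib

/-!
A very slow function for a given fast one.
-/

set_option autoImplicit false

open Finset Filter Topology

namespace Pool.Agent.H607.Arb

/-- iterates of a majorant of `F` -/
def GG (F : ℕ → ℕ) : ℕ → ℕ
  | 0 => 0
  | k + 1 => GG F k + 1 + ∑ i ∈ range (GG F k + 1), F i

lemma GG_mono (F : ℕ → ℕ) : StrictMono (GG F) := by
  apply strictMono_nat_of_lt_succ
  intro k
  rw [GG]
  omega

lemma GG_F (F : ℕ → ℕ) (k : ℕ) : F (GG F k) ≤ GG F (k + 1) := by
  rw [GG]
  have h1 : F (GG F k) ≤ ∑ i ∈ range (GG F k + 1), F i :=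
    Finset.single_le_sum (f := F) (fun i _ => Nat.zero_le _) (mem_range.2 (by omega))
  omega

/-- the number of iterates up to `n` -/
def ig (F : ℕ → ℕ) (n : ℕ) : ℕ := Nat.findGreatest (fun k => GG F k ≤ n) n

lemma ig_spec (F : ℕ → ℕ) (n : ℕ) : GG F (ig F n) ≤ n :=
  Nat.findGreatest_spec (P := fun k => GG F k ≤ n) (Nat.zero_le n) (Nat.zero_le n)

lemma ig_ge (F : ℕ → ℕ) (k n : ℕ) (h : GG F k ≤ n) : k ≤ ig F n :=
  Nat.le_findGreatest ((GG_mono F).le_apply.trans h) h

theorem slowf (F : ℕ → ℕ) : ∃ f : ℕ → ℕ, Tendsto f atTop atTop ∧ ∀ E : Set ℕ,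
    (∃ᶠ n in atTop, {i : ℕ | i < n ∧ i ∈ E}.ncard ≤ f n) →
      ∃ᶠ n in atTop, ∀ i, n ≤ i → i < F n → i ∉ E := by
  refine ⟨fun n => ig F n / 2, ?_, fun E hE => ?_⟩
  · rw [tendsto_atTop]
    intro k
    filter_upwards [eventually_ge_atTop (GG F (2 * k))] with n hn
    have := ig_ge F (2 * k) n hn
    omega
  · by_contra hcon
    rw [not_frequently] at hcon
    obtain ⟨n0, hn0⟩ := eventually_atTop.1 hcon
    have hE1 : ∀ k, n0 ≤ k → ∃ i ∈ E, GG F k ≤ i ∧ i < GG F (k + 1) := by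
      intro k hk
      have h1 := hn0 (GG F k) (hk.trans (GG_mono F).le_apply)
      push Not at h1
      obtain ⟨i, h2, h3, h4⟩ := h1
      exact ⟨i, h4, h2, h3.trans_le (GG_F F k)⟩
    have key : ∀ l, l ≤ {i : ℕ | i < GG F (n0 + l) ∧ i ∈ E}.ncard := by
      intro l
      induction l with
      | zero => exact Nat.zero_le _
      | succ l ih =>
        obtain ⟨i, hiE, hi1, hi2⟩ := hE1 (n0 + l) (by omega)
        have hfin : {i : ℕ | i < GG F (n0 + (l + 1)) ∧ i ∈ E}.Finite :=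
          (Set.finite_Iio _).subset fun j hj => hj.1
        have hfin' : {i : ℕ | i < GG F (n0 + l) ∧ i ∈ E}.Finite :=
          (Set.finite_Iio _).subset fun j hj => hj.1
        have h4 : insert i {j : ℕ | j < GG F (n0 + l) ∧ j ∈ E} ⊆
            {i : ℕ | i < GG F (n0 + (l + 1)) ∧ i ∈ E} := by
          intro j hj
          rcases Set.mem_insert_iff.1 hj with rfl | h
          · exact ⟨hi2, hiE⟩
          · refine ⟨?_, h.2⟩
            have h5 := h.1
            have h6 := (GG_mono F) (show n0 + l < n0 + (l + 1) by omega)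
            omega
        have h5 : i ∉ {j : ℕ | j < GG F (n0 + l) ∧ j ∈ E} := by
          rintro ⟨h, _⟩
          omega
        have h6 := Set.ncard_le_ncard h4 hfin
        rw [Set.ncard_insert_of_notMem h5 hfin'] at h6
        omega
    obtain ⟨n, hn1, hn2⟩ := (hE.and_eventually
      (eventually_ge_atTop (GG F (2 * n0 + 2)))).exists
    have h1 := ig_ge F _ n hn2
    obtain ⟨l, hl⟩ : ∃ l, ig F n = n0 + l := ⟨ig F n - n0, by omega⟩
    have h2 := key l
    have h3 : {i : ℕ | i < GG F (n0 + l) ∧ i ∈ E}.ncard ≤ {i : ℕ | i < n ∧ i ∈ E}.ncard := by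
      apply Set.ncard_le_ncard _ ((Set.finite_Iio n).subset fun j hj => hj.1)
      rintro j ⟨hj1, hj2⟩
      refine ⟨?_, hj2⟩
      have := ig_spec F n
      rw [hl] at this
      omega
    simp only at hn1
    omega

end Pool.Agent.H607.Arb
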