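import Mathlib
import Pool.Agent.H607.Arb.Along
import Pool.Graph.R_pool_sql_team_seeded_3997aac3.Q77.Few.Limit

/-!
A number for which very few changes cannot give normality along a set of positive lower density.
-/

set_option autoImplicit false

open Finset Filter Topology

namespace Pool.Agent.H607.Arb

open Pool.Agent.Q77.Few (head head_lt head_congr split digs digs_eq floor_head word_iff
  fract_bounds digits_bounds diff no_word zz)

/-- block of a place: `2 ^ (e ^ 2) ≤ t < 2 ^ ((e + 1) ^ 2)` -/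
def bk (t : ℕ) : ℕ := Nat.sqrt (Nat.log 2 t)

lemma bk_eq (e t : ℕ) (h1 : 2 ^ (e * e) ≤ t) (h2 : t < 2 ^ ((e + 1) * (e + 1))) : bk t = e := by
  unfold bk
  have ht : t ≠ 0 := by
    have : 1 ≤ 2 ^ (e * e) := Nat.one_le_two_pow
    omega
  have h3 : e * e ≤ Nat.log 2 t := Nat.le_log_of_pow_le (by norm_num) h1
  have h4 : Nat.log 2 t < (e + 1) * (e + 1) := Nat.log_lt_of_lt_pow ht h2
  apply le_antisymm
  · exact Nat.lt_succ_iff.1 (Nat.sqrt_lt.2 h4)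
  · exact Nat.le_sqrt.2 h3

/-- digits of the number -/
noncomputable def c2 (s b : ℕ) (hb : 1 ≤ b) (t : ℕ) : Fin b := digs b hb (zz s (bk t)) t

/-- near integers in the block `e` -/
lemma near2 (s b : ℕ) (hb : 2 ≤ b) (e t : ℕ) (h1 : 2 ^ (e * e) ≤ t)
    (h2 : t < 2 ^ ((e + 1) * (e + 1))) : ∃ m : ℤ,
    |(b : ℝ) ^ t * (Real.ofDigits (c2 s b (by omega)) - zz s e) - m| ≤
      1 / (b : ℝ) ^ (2 ^ ((e + 1) * (e + 1)) - t) := by
  set c := c2 s b (by omega) with hc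
  set z := zz s e with hz
  set L := 2 ^ ((e + 1) * (e + 1)) - t with hL
  have hb0 : (0 : ℝ) < b := by exact_mod_cast (by omega : 0 < b)
  have hD : ∀ j < L, ⌊(z * (b : ℝ) ^ t) * (b : ℝ) ^ (j + 1)⌋ % b = ((c (j + t) : ℕ) : ℤ) := by
    intro j hj
    have h3 : bk (j + t) = e := bk_eq e (j + t) (by omega) (by omega)
    rw [hc]
    unfold c2
    rw [h3, ← hz, ← digs_eq b (by omega) z (j + t)]
    congr 2
    rw [mul_assoc, ← pow_add]
    congr 2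
    ring
  obtain ⟨h3, h4⟩ := fract_bounds b (by omega) (z * (b : ℝ) ^ t) (fun i => c (i + t)) L hD
  obtain ⟨h5, h6⟩ := digits_bounds b (by omega) (fun i => c (i + t)) L
  refine ⟨head b c t - ⌊z * (b : ℝ) ^ t⌋, ?_⟩
  have h7 : (b : ℝ) ^ t * (Real.ofDigits c - z) - ((head b c t - ⌊z * (b : ℝ) ^ t⌋ : ℤ) : ℝ) =
      Real.ofDigits (fun i => c (i + t)) - Int.fract (z * (b : ℝ) ^ t) := by
    rw [split b (by omega) c t, Int.fract]
    push_cast
    field_simp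
    ring
  rw [h7, abs_le]
  have h8 : ((head b (fun i => c (i + t)) L : ℝ) + 1) / (b : ℝ) ^ L =
      (head b (fun i => c (i + t)) L : ℝ) / (b : ℝ) ^ L + 1 / (b : ℝ) ^ L := by ring
  rw [h8] at h4 h6
  constructor <;> linarith

/-- the length of the agreement needed -/
def FF (s b n : ℕ) : ℕ := b * (2 ^ (2 * s ^ n * (2 * s ^ n)) + 3)

theorem slow1 (s b : ℕ) (hs : 2 ≤ s) (hb : 2 ≤ b) : ∃ x : ℝ, ∀ y : ℝ,
    (∃ᶠ n : ℕ in atTop, ∀ i, n ≤ i → i < FF s b n →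
      ⌊y * (s : ℝ) ^ (i + 1)⌋ % s = ⌊x * (s : ℝ) ^ (i + 1)⌋ % s) →
    ∀ S : Set ℕ, Nal b S y → ∀ ε : ℝ, 0 < ε →
      ∃ᶠ n : ℕ in atTop, ({N : ℕ | N < n ∧ N ∈ S}.ncard : ℝ) ≤ ε * n := by
  refine ⟨Real.ofDigits (c2 s b (by omega)), fun y hy S hS ε hε => ?_⟩
  set x := Real.ofDigits (c2 s b (by omega)) with hx
  have hbR : (2 : ℝ) ≤ b := by exact_mod_cast hb
  have hsR : (2 : ℝ) ≤ s := by exact_mod_cast hs
  set w : Fin 2 → Fin b := fun j => ⟨j, by have := j.isLt; omega⟩ with hw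
  have h0 := hS 2 (by norm_num) w
  rw [Metric.tendsto_nhds] at h0
  have h0' := h0 (1 / (2 * (b : ℝ) ^ 2)) (by positivity)
  rw [eventually_inf_principal] at h0'
  obtain ⟨N0, hN0⟩ := eventually_atTop.1 h0'
  rw [frequently_atTop]
  intro n1
  obtain ⟨n2, hn2⟩ := exists_nat_gt ((N0 + 10 * (b : ℝ) ^ 2) / ε)
  obtain ⟨n, hyn, hn⟩ := (hy.and_eventually (eventually_ge_atTop (n1 + n2 + 1))).exists
  have hnF : n ≤ FF s b n := by
    have h1 : n < s ^ n := Nat.lt_pow_self (by omega)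
    have h2 : 2 * s ^ n * (2 * s ^ n) < 2 ^ (2 * s ^ n * (2 * s ^ n)) := Nat.lt_two_pow_self
    unfold FF
    nlinarith
  obtain ⟨u, q, hu, hdiff⟩ := diff s hs x y n _ hnF hyn
  set e : ℕ := s ^ n + u with he
  have hlog : Nat.log s e = n := by
    apply Nat.log_eq_of_pow_le_of_lt_pow (by omega)
    rw [pow_succ]
    nlinarith
  have hz : zz s e = -((u : ℝ) / (s : ℝ) ^ n) := by
    unfold zz
    rw [hlog]
    congr 3
    omega
  have hsn : n < s ^ n := Nat.lt_pow_self (by omega)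
  set g : ℕ := 2 ^ (e * e) with hg
  set G : ℕ := 2 ^ ((e + 1) * (e + 1)) with hG
  have hg1 : 1 ≤ g := Nat.one_le_two_pow
  -- size
  have hF : b * (G + 3) ≤ FF s b n := by
    unfold FF
    apply Nat.mul_le_mul_left
    have h1 : e + 1 ≤ 2 * s ^ n := by omega
    have h2 : G ≤ 2 ^ (2 * s ^ n * (2 * s ^ n)) :=
      Nat.pow_le_pow_right (by norm_num) (Nat.mul_le_mul h1 h1)
    omega
  have hsF : (b : ℝ) ^ (G + 3) ≤ (s : ℝ) ^ (FF s b n) := by
    calc (b : ℝ) ^ (G + 3) ≤ ((2 : ℝ) ^ b) ^ (G + 3) := by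
          gcongr
          exact_mod_cast (Nat.lt_two_pow_self (n := b)).le
      _ = (2 : ℝ) ^ (b * (G + 3)) := by rw [← pow_mul]
      _ ≤ (s : ℝ) ^ (b * (G + 3)) := by gcongr
      _ ≤ _ := pow_le_pow_right₀ (by linarith) hF
  have hno : ∀ t, g ≤ t → t + 4 ≤ G →
      ¬ ∀ j : Fin 2, ⌊y * (b : ℝ) ^ (t + 1 + (j : ℕ))⌋ % b = ((w j : ℕ) : ℤ) := by
    intro t ht1 ht2
    obtain ⟨m, hm⟩ := near2 s b hb e t ht1 (by rw [← hG]; omega)
    rw [← hx, hz] at hm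
    apply no_word b hb y t (m + (b : ℤ) ^ t * q) _ w rfl rfl
    have h1 : (b : ℝ) ^ t * y - ((m + (b : ℤ) ^ t * q : ℤ) : ℝ) =
        ((b : ℝ) ^ t * (x - -((u : ℝ) / (s : ℝ) ^ n)) - m) +
          (b : ℝ) ^ t * (y - x - u / (s : ℝ) ^ n - q) := by
      push_cast
      ring
    rw [h1]
    have h2 : |(b : ℝ) ^ t * (y - x - u / (s : ℝ) ^ n - q)| ≤ 1 / (b : ℝ) ^ 3 := by
      rw [abs_mul, abs_of_pos (by positivity : (0 : ℝ) < (b : ℝ) ^ t)]
      calc (b : ℝ) ^ t * |y - x - u / (s : ℝ) ^ n - q|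
          ≤ (b : ℝ) ^ t * (1 / (s : ℝ) ^ (FF s b n)) := by gcongr
        _ ≤ (b : ℝ) ^ t * (1 / (b : ℝ) ^ (G + 3)) := by gcongr
        _ ≤ (b : ℝ) ^ G * (1 / (b : ℝ) ^ (G + 3)) := by
            gcongr
            · linarith
            · omega
        _ = 1 / (b : ℝ) ^ 3 := by
            have h3 : (b : ℝ) ^ (G + 3) = (b : ℝ) ^ G * (b : ℝ) ^ 3 := pow_add _ _ _
            have h4 : (b : ℝ) ^ G ≠ 0 := by positivity
            rw [h3]
            field_simp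
    have h3 : 1 / (b : ℝ) ^ (2 ^ ((e + 1) * (e + 1)) - t) ≤ 1 / (b : ℝ) ^ 4 := by
      rw [← hG]
      gcongr
      · linarith
      · omega
    have h4 : 1 / (b : ℝ) ^ 4 + 1 / (b : ℝ) ^ 3 < 1 / (b : ℝ) ^ 2 := by
      have h5 : 1 / (b : ℝ) ^ 4 + 1 / (b : ℝ) ^ 3 = (1 + b) / (b : ℝ) ^ 4 := by
        field_simp
      have h6 : 1 / (b : ℝ) ^ 2 = (b : ℝ) ^ 2 / (b : ℝ) ^ 4 := by field_simp
      rw [h5, h6]
      gcongr
      nlinarith
    calc _ ≤ |(b : ℝ) ^ t * (x - -((u : ℝ) / (s : ℝ) ^ n)) - m| +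
          |(b : ℝ) ^ t * (y - x - u / (s : ℝ) ^ n - q)| := abs_add_le _ _
      _ ≤ 1 / (b : ℝ) ^ 4 + 1 / (b : ℝ) ^ 3 := add_le_add (hm.trans h3) h2
      _ < _ := h4
  -- counting the word
  have hcount : ∀ N ≤ G, ((range N).filter (fun i : ℕ => ∀ j : Fin 2,
      ⌊y * (b : ℝ) ^ (i + 1 + (j : ℕ))⌋ % b = ((w j : ℕ) : ℤ))).card ≤ g + 4 := by
    intro N hN
    have hsub : (range N).filter (fun i : ℕ => ∀ j : Fin 2,
        ⌊y * (b : ℝ) ^ (i + 1 + (j : ℕ))⌋ % b = ((w j : ℕ) : ℤ)) ⊆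
        range g ∪ Ico (G - 4) G := by
      intro i hi
      rw [mem_filter, mem_range] at hi
      rw [mem_union, mem_range, mem_Ico]
      by_contra hcon
      push Not at hcon
      obtain ⟨h1, h2⟩ := hcon
      apply hno i h1 _ hi.2
      by_contra h3
      have := h2 (by omega)
      omega
    calc _ ≤ (range g ∪ Ico (G - 4) G).card := card_le_card hsub
      _ ≤ (range g).card + (Ico (G - 4) G).card := card_union_le _ _
      _ ≤ _ := by
          rw [card_range, Nat.card_Ico]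
          omega
  -- the lengths
  have hlen : {N : ℕ | N < G ∧ N ∈ S} ⊆ ((range (N0 + 2 * b ^ 2 * (g + 4)) : Finset ℕ) : Set ℕ) := by
    rintro N ⟨h1, h2⟩
    rw [mem_coe, mem_range]
    by_contra hcon
    push Not at hcon
    have hNpos : (0 : ℝ) < N := by
      have : 0 < 2 * b ^ 2 * (g + 4) := by positivity
      exact_mod_cast (by omega : 0 < N)
    have h3 := hN0 N (by omega) h2
    rw [Real.dist_eq, abs_lt] at h3
    have h4 := h3.1
    have h5 : (((range N).filter (fun i : ℕ => ∀ j : Fin 2,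
        ⌊y * (b : ℝ) ^ (i + 1 + (j : ℕ))⌋ % b = ((w j : ℕ) : ℤ))).card : ℝ) ≤ g + 4 := by
      exact_mod_cast hcount N h1.le
    have h6 : 1 / (b : ℝ) ^ 2 = 2 * (1 / (2 * (b : ℝ) ^ 2)) := by field_simp
    have h7 : 1 / (2 * (b : ℝ) ^ 2) < ((g : ℝ) + 4) / N := by
      calc 1 / (2 * (b : ℝ) ^ 2) < (((range N).filter (fun i : ℕ => ∀ j : Fin 2,
        ⌊y * (b : ℝ) ^ (i + 1 + (j : ℕ))⌋ % b = ((w j : ℕ) : ℤ))).card : ℝ) / N := by linarith
        _ ≤ _ := by gcongr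
    rw [div_lt_div_iff₀ (by positivity) hNpos] at h7
    have h8 : ((2 * b ^ 2 * (g + 4) : ℕ) : ℝ) ≤ N := by exact_mod_cast (by omega)
    push_cast at h8
    linarith
  have hcard : ({N : ℕ | N < G ∧ N ∈ S}.ncard : ℝ) ≤ N0 + 2 * (b : ℝ) ^ 2 * (g + 4) := by
    have h1 := Set.ncard_le_ncard hlen (Finset.finite_toSet _)
    rw [Set.ncard_coe_finset, card_range] at h1
    exact_mod_cast h1
  have hGg : G = g * 2 ^ (2 * e + 1) := by
    rw [hG, hg, ← pow_add]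
    congr 1
    ring
  have h2e : n ≤ 2 ^ (2 * e + 1) := by
    have : 2 * e + 1 < 2 ^ (2 * e + 1) := Nat.lt_two_pow_self
    omega
  refine ⟨G, ?_, hcard.trans ?_⟩
  · calc n1 ≤ n := by omega
      _ ≤ 2 ^ (2 * e + 1) := h2e
      _ ≤ G := by rw [hGg]; exact Nat.le_mul_of_pos_left _ (by omega)
  · have h1 : (N0 : ℝ) + 10 * (b : ℝ) ^ 2 ≤ ε * n := by
      rw [div_lt_iff₀ hε] at hn2
      have h3 : (n2 : ℝ) ≤ n := by exact_mod_cast (by omega : n2 ≤ n)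
      nlinarith
    have h2 : (n : ℝ) ≤ ((2 ^ (2 * e + 1) : ℕ) : ℝ) := by exact_mod_cast h2e
    have h3 : (1 : ℝ) ≤ g := by exact_mod_cast hg1
    have h4 : (G : ℝ) = g * ((2 ^ (2 * e + 1) : ℕ) : ℝ) := by exact_mod_cast hGg
    have h5 : (0 : ℝ) ≤ N0 := Nat.cast_nonneg N0
    have h6 : (0 : ℝ) ≤ (b : ℝ) ^ 2 := by positivity
    calc (N0 : ℝ) + 2 * (b : ℝ) ^ 2 * (g + 4) ≤ g * (N0 + 10 * (b : ℝ) ^ 2) := by
          nlinarith [mul_nonneg h5 (sub_nonneg.2 h3), mul_nonneg h6 (sub_nonneg.2 h3)]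
      _ ≤ g * (ε * n) := by gcongr
      _ ≤ g * (ε * ((2 ^ (2 * e + 1) : ℕ) : ℝ)) := by gcongr
      _ = ε * G := by rw [h4]; ring

end Pool.Agent.H607.Arb
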